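import Pool.Agent.H968R3.SurfDefs

set_option autoImplicit false

namespace Pool.Agent.H968R3

open SimpleGraph

variable {V : Type}

/-- The neighbours `a` of `w` from which the set `S` can be reached in at most two steps without
using `w` as the middle vertex. -/
def Bad (G : SimpleGraph V) (S : Set V) (w : V) : Set V :=
  {a | G.Adj w a ∧ (a ∈ S ∨ (∃ z ∈ S, G.Adj a z) ∨
    ∃ b z, z ∈ S ∧ b ≠ w ∧ G.Adj a b ∧ G.Adj b z)}

section ThmA

variable (G : SimpleGraph V) (r : V → ℕ) (high : V → Prop)

/-- `w` is a smaller high vertex related to `v`. -/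
def Rel (v w : V) : Prop :=
  high w ∧ r w < r v ∧ (G.Adj v w ∨ (∃ u, ¬ high u ∧ G.Adj v u ∧ G.Adj u w) ∨
    ∃ x, high x ∧ r v < r x ∧ G.Adj v x ∧ G.Adj x w)

theorem exists_A : ∃ A : V → Prop, ∀ v, A v ↔ (high v ∧
    (∃ m, Rel G r high v m ∧ (∀ w, Rel G r high v w → r m ≤ r w) ∧ G.Adj v m ∧ ¬ A m) ∧
    ∀ y, r y < r v → high y → G.Adj v y → ¬ A y) := by
  classical
  let F : (v : V) → ((y : V) → (measure r).rel y v → Prop) → Prop := fun v rec =>
    high v ∧ (∃ m, ∃ h : r m < r v, Rel G r high v m ∧ (∀ w, Rel G r high v w → r m ≤ r w) ∧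
      G.Adj v m ∧ ¬ rec m h) ∧ ∀ y, (h : r y < r v) → high y → G.Adj v y → ¬ rec y h
  let A : V → Prop := (measure r).wf.fix F
  refine ⟨A, fun v => ?_⟩
  have h1 : A v = F v (fun y _ => A y) := WellFounded.fix_eq _ F v
  rw [h1]
  constructor
  · rintro ⟨h2, ⟨m, h3, h4, h5, h6, h7⟩, h8⟩
    exact ⟨h2, ⟨m, h4, h5, h6, h7⟩, h8⟩
  · rintro ⟨h2, ⟨m, h4, h5, h6, h7⟩, h8⟩
    exact ⟨h2, ⟨m, h4.2.1, h4, h5, h6, h7⟩, h8⟩

end ThmA

/-- **Theorem A.** A triangle-free graph with an ordering in which every vertex `w` has at most `d`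
neighbours that start a path of length at most three to a smaller vertex is `(0, d)`-colourable. -/
theorem zeroCol_of_order [Finite V] (G : SimpleGraph V) (d : ℕ) (r : V → ℕ)
    (hr : Function.Injective r)
    (htri : ∀ a b c, G.Adj a b → G.Adj b c → G.Adj a c → False)
    (hbad : ∀ w, (Bad G {z | r z < r w} w).ncard ≤ d) : ZeroCol G d := by
  classical
  set high : V → Prop := fun v => d < (G.neighborSet v).ncard with hhigh
  obtain ⟨A, hA⟩ := exists_A G r high
  set noA : V → Prop := fun v => ∀ y, G.Adj v y → ¬ A y with hnoA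
  set key : V → ℕ∞ := fun u => sInf {n : ℕ∞ | ∃ y, G.Adj u y ∧ high y ∧ n = (r y : ℕ∞)} with hkey
  have key_le : ∀ u y, G.Adj u y → high y → key u ≤ (r y : ℕ∞) := fun u y h1 h2 =>
    sInf_le ⟨y, h1, h2, rfl⟩
  have key_mem : ∀ u, key u ≠ ⊤ → ∃ y, G.Adj u y ∧ high y ∧ key u = (r y : ℕ∞) := by
    intro u hu
    have hne : {n : ℕ∞ | ∃ y, G.Adj u y ∧ high y ∧ n = (r y : ℕ∞)}.Nonempty := by
      by_contra hcon
      rw [Set.not_nonempty_iff_eq_empty] at hcon
      apply hu
      simp only [hkey]
      rw [hcon]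
      exact sInf_empty
    exact csInf_mem hne
  set prec : V → V → Prop := fun a b => key a < key b ∨ (key a = key b ∧ r a < r b) with hprec
  set excl : V → Prop := fun u => ∃ u', ¬ high u' ∧ noA u' ∧ G.Adj u u' ∧ prec u' u with hexcl
  have Ahigh : ∀ v, A v → high v := fun v h => ((hA v).1 h).1
  -- every element of `A` has a minimal related vertex, adjacent to it, not in `A`
  have Amin : ∀ v, A v → ∃ m, Rel G r high v m ∧ (∀ w, Rel G r high v w → r m ≤ r w) ∧
      G.Adj v m ∧ ¬ A m := fun v h => ((hA v).1 h).2.1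
  have Aindep : ∀ x y, A x → A y → ¬ G.Adj x y := by
    intro x y hx hy hxy
    rcases lt_trichotomy (r x) (r y) with h | h | h
    · exact ((hA y).1 hy).2.2 x h (Ahigh x hx) hxy.symm hx
    · exact hxy.ne (hr h)
    · exact ((hA x).1 hx).2.2 y h (Ahigh y hy) hxy hy
  refine ⟨{v | A v ∨ (¬ high v ∧ noA v ∧ ¬ excl v)}, ?_, ?_⟩
  · rintro u (hu | hu) v (hv | hv) huv
    · exact Aindep u v hu hv huv
    · exact hv.2.1 u huv.symm hu
    · exact hu.2.1 v huv hv
    · have h1 : prec u v ∨ prec v u := by
        simp only [hprec]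
        rcases lt_trichotomy (key u) (key v) with h | h | h
        · exact Or.inl (Or.inl h)
        · rcases lt_trichotomy (r u) (r v) with h' | h' | h'
          · exact Or.inl (Or.inr ⟨h, h'⟩)
          · exact absurd (hr h') huv.ne
          · exact Or.inr (Or.inr ⟨h.symm, h'⟩)
        · exact Or.inr (Or.inl h)
      rcases h1 with h1 | h1
      · exact hv.2.2 ⟨u, hu.1, hu.2.1, huv.symm, h1⟩
      · exact hu.2.2 ⟨v, hv.1, hv.2.1, huv, h1⟩
  · intro w hw
    by_cases hwh : high w
    · have hwA : ¬ A w := fun h => hw (Or.inl h)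
      refine le_trans (Set.ncard_le_ncard ?_ (Set.toFinite _)) (hbad w)
      rintro a ⟨hwa, ha⟩
      refine ⟨hwa, ?_⟩
      have haA : ¬ A a := fun h => ha (Or.inl h)
      by_cases hah : high a
      · -- `a` is high and not in `A`
        rcases lt_trichotomy (r a) (r w) with h | h | h
        · exact Or.inl h
        · exact absurd (hr h) hwa.ne'
        · have hRaw : Rel G r high a w := ⟨hwh, h, Or.inl hwa.symm⟩
          obtain ⟨m, hm, hmin⟩ : ∃ m, Rel G r high a m ∧ ∀ w, Rel G r high a w → r m ≤ r w := by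
            obtain ⟨m, hm, hmin⟩ := (measure r).wf.has_min {m | Rel G r high a m} ⟨w, hRaw⟩
            exact ⟨m, hm, fun w hw' => not_lt.1 (hmin w hw')⟩
          by_cases hmw : m = w
          · subst hmw
            -- some smaller high neighbour of `a` is in `A`
            have h1 : ¬ (∀ y, r y < r a → high y → G.Adj a y → ¬ A y) := by
              intro hall
              exact haA ((hA a).2 ⟨hah, ⟨m, hm, hmin, hwa.symm, hwA⟩, hall⟩)
            push Not at h1
            obtain ⟨y, hy1, hy2, hy3, hy4⟩ := h1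
            have hmy : r m ≤ r y := hmin y ⟨hy2, hy1, Or.inl hy3⟩
            have hym : y ≠ m := fun e => hwA (e ▸ hy4)
            have hmy' : r m < r y := lt_of_le_of_ne hmy (fun e => hym (hr e.symm))
            have hRym : Rel G r high y m :=
              ⟨hwh, hmy', Or.inr (Or.inr ⟨a, hah, hy1, hy3.symm, hwa.symm⟩)⟩
            obtain ⟨p, hp, hpmin, hyp, hpA⟩ := Amin y hy4
            have h2 : r p ≤ r m := hpmin m hRym
            have h3 : p ≠ m := by
              rintro rfl
              exact htri p a y hwa hy3 hyp.symm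
            have h4 : r p < r m := lt_of_le_of_ne h2 (fun e => h3 (hr e))
            exact Or.inr (Or.inr ⟨y, p, h4, hym, hy3, hyp⟩)
          · have h1 : r m < r w :=
              lt_of_le_of_ne (hmin w hRaw) (fun e => hmw (hr e))
            rcases hm.2.2 with h2 | ⟨u, hu, h2, h3⟩ | ⟨x, hx, hx1, h2, h3⟩
            · exact Or.inr (Or.inl ⟨m, h1, h2⟩)
            · refine Or.inr (Or.inr ⟨u, m, h1, ?_, h2, h3⟩)
              rintro rfl
              exact hu hwh
            · refine Or.inr (Or.inr ⟨x, m, h1, ?_, h2, h3⟩)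
              rintro rfl
              omega
      · by_cases hno : noA a
        · -- `a` is excluded
          have hex : excl a := by
            by_contra hne
            exact ha (Or.inr ⟨hah, hno, hne⟩)
          obtain ⟨u', hu1, hu2, hu3, hu4⟩ := hex
          have h1 : key a ≤ (r w : ℕ∞) := key_le a w hwa.symm hwh
          have h2 : key u' ≤ key a := by
            rcases hu4 with h | h
            · exact h.le
            · exact h.1.le
          have h3 : key u' ≤ (r w : ℕ∞) := h2.trans h1
          obtain ⟨z, hz1, hz2, hz3⟩ := key_mem u' (ne_top_of_le_ne_top (ENat.natCast_ne_top _) h3)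
          rw [hz3] at h3
          have h4 : r z ≤ r w := by exact_mod_cast h3
          have h5 : z ≠ w := by
            rintro rfl
            exact htri z a u' hwa hu3 hz1.symm
          have h6 : r z < r w := lt_of_le_of_ne h4 (fun e => h5 (hr e))
          refine Or.inr (Or.inr ⟨u', z, h6, ?_, hu3, hz1⟩)
          rintro rfl
          exact hu1 hwh
        · -- `a` has a neighbour in `A`
          have : ∃ v, G.Adj a v ∧ A v := by
            by_contra hcon
            push Not at hcon
            exact hno hcon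
          obtain ⟨v, hv1, hv2⟩ := this
          have hvw : v ≠ w := fun e => hwA (e ▸ hv2)
          rcases lt_trichotomy (r v) (r w) with h | h | h
          · exact Or.inr (Or.inl ⟨v, h, hv1⟩)
          · exact absurd (hr h) hvw
          · have hRvw : Rel G r high v w :=
              ⟨hwh, h, Or.inr (Or.inl ⟨a, hah, hv1.symm, hwa.symm⟩)⟩
            obtain ⟨p, hp, hpmin, hvp, hpA⟩ := Amin v hv2
            have h2 : r p ≤ r w := hpmin w hRvw
            have h3 : p ≠ w := by
              rintro rfl
              exact htri p a v hwa hv1 hvp.symm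
            have h4 : r p < r w := lt_of_le_of_ne h2 (fun e => h3 (hr e))
            exact Or.inr (Or.inr ⟨v, p, h4, hvw, hv1, hvp⟩)
    · have h1 : (G.neighborSet w).ncard ≤ d := not_lt.1 hwh
      refine le_trans (Set.ncard_le_ncard ?_ (Set.toFinite _)) h1
      rintro a ⟨ha, -⟩
      exact ha

end Pool.Agent.H968R3
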