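import Pool.Agent.H968R3.Surface

set_option autoImplicit false

namespace Pool.Agent.H968R3

open SimpleGraph

variable {W : Type}

/-- The dual graph of a triangulated surface with the edges dual to `H` removed. -/
def dual (T : Finset (Finset W)) (H : SimpleGraph W) : SimpleGraph {t : Finset W // t ∈ T} where
  Adj t t' := t ≠ t' ∧ ∃ x y, x ≠ y ∧ x ∈ t.1 ∧ y ∈ t.1 ∧ x ∈ t'.1 ∧ y ∈ t'.1 ∧ ¬ H.Adj x y
  symm := ⟨fun _ _ ⟨h, x, y, h0, h1, h2, h3, h4, h5⟩ => ⟨h.symm, x, y, h0, h3, h4, h1, h2, h5⟩⟩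
  loopless := ⟨fun _ h => h.1 rfl⟩

/-- The edges crossed by a subgraph `F` of the dual graph. -/
def crossed (T : Finset (Finset W)) (F : SimpleGraph {t : Finset W // t ∈ T}) : Set (Sym2 W) :=
  {e | ∃ t t' : {t : Finset W // t ∈ T}, ∃ x y, F.Adj t t' ∧ x ≠ y ∧ x ∈ t.1 ∧ y ∈ t.1 ∧
    x ∈ t'.1 ∧ y ∈ t'.1 ∧ e = s(x, y)}

variable {T : Finset (Finset W)} {H : SimpleGraph W} {F : SimpleGraph {t : Finset W // t ∈ T}}

theorem crossed_iff {x y : W} : s(x, y) ∈ crossed T F ↔
    x ≠ y ∧ ∃ t t' : {t : Finset W // t ∈ T}, F.Adj t t' ∧ x ∈ t.1 ∧ y ∈ t.1 ∧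
      x ∈ t'.1 ∧ y ∈ t'.1 := by
  constructor
  · rintro ⟨t, t', a, b, h1, h2, h3, h4, h5, h6, h7⟩
    rcases Sym2.eq_iff.1 h7 with ⟨rfl, rfl⟩ | ⟨rfl, rfl⟩
    · exact ⟨h2, t, t', h1, h3, h4, h5, h6⟩
    · exact ⟨h2.symm, t, t', h1, h4, h3, h6, h5⟩
  · rintro ⟨h2, t, t', h1, h3, h4, h5, h6⟩
    exact ⟨t, t', x, y, h1, h2, h3, h4, h5, h6, rfl⟩

/-- two triangles share at most one edge -/
theorem shared_unique (hT : IsClosedSurface T) {t t' : Finset W} (ht : t ∈ T) (ht' : t' ∈ T)
    (hne : t ≠ t') {x y a b : W} (hxy : x ≠ y) (hab : a ≠ b) (h1 : x ∈ t) (h2 : y ∈ t)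
    (h3 : x ∈ t') (h4 : y ∈ t') (h5 : a ∈ t) (h6 : b ∈ t) (h7 : a ∈ t') (h8 : b ∈ t') :
    s(x, y) = s(a, b) := by
  by_contra hcon
  have ha : a = x ∨ a = y := by
    by_contra h
    push Not at h
    exact hne (eq_of_three hT ht ht' hxy h.1.symm h.2.symm h1 h2 h5 h3 h4 h7)
  have hb : b = x ∨ b = y := by
    by_contra h
    push Not at h
    exact hne (eq_of_three hT ht ht' hxy h.1.symm h.2.symm h1 h2 h6 h3 h4 h8)
  rcases ha with rfl | rfl <;> rcases hb with rfl | rfl
  · exact hab rfl
  · exact hcon rfl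
  · exact hcon Sym2.eq_swap
  · exact hab rfl

theorem crossed_not_adj (hT : IsClosedSurface T) (hF : F ≤ dual T H) {x y : W}
    (h : s(x, y) ∈ crossed T F) : ¬ H.Adj x y := by
  obtain ⟨hxy, t, t', h1, h2, h3, h4, h5⟩ := crossed_iff.1 h
  obtain ⟨h6, a, b, hab, h7, h8, h9, h10, h11⟩ := hF h1
  have hne : t.1 ≠ t'.1 := fun e => h6 (Subtype.ext e)
  have := shared_unique hT t.2 t'.2 hne hxy hab h2 h3 h4 h5 h7 h8 h9 h10
  intro hadj
  apply h11
  rcases Sym2.eq_iff.1 this with ⟨rfl, rfl⟩ | ⟨rfl, rfl⟩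
  · exact hadj
  · exact hadj.symm

theorem crossed_sub : crossed T F ⊆ (skel T).edgeSet := by
  intro e
  induction e with
  | _ x y =>
    intro h
    obtain ⟨hxy, t, t', h1, h2, h3, h4, h5⟩ := crossed_iff.1 h
    exact ⟨hxy, t.1, t.2, h2, h3⟩

theorem card_crossed [Finite W] (hT : IsClosedSurface T) (hF : F ≤ dual T H) :
    F.edgeSet.ncard ≤ (crossed T F).ncard := by
  classical
  have hex : ∀ e ∈ F.edgeSet, ∃ e' ∈ crossed T F, ∃ x y, x ≠ y ∧ e' = s(x, y) ∧
      ∀ t ∈ e, x ∈ t.1 ∧ y ∈ t.1 := by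
    intro e
    induction e with
    | _ t t' =>
      intro h
      obtain ⟨h6, a, b, hab, h7, h8, h9, h10, h11⟩ := hF h
      refine ⟨s(a, b), crossed_iff.2 ⟨hab, t, t', h, h7, h8, h9, h10⟩, a, b, hab, rfl, ?_⟩
      intro s hs
      rcases Sym2.mem_iff.1 hs with rfl | rfl
      · exact ⟨h7, h8⟩
      · exact ⟨h9, h10⟩
  have hneW : Nonempty (Sym2 W) := by
    obtain ⟨x⟩ := hT.conn.nonempty
    exact ⟨s(x, x)⟩
  choose! φ hφ1 hφ2 using hex
  refine Set.ncard_le_ncard_of_injOn φ hφ1 ?_ (Set.toFinite _)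
  intro e he e' he' hee
  obtain ⟨x, y, hxy, h1, h2⟩ := hφ2 e he
  obtain ⟨x', y', hxy', h1', h2'⟩ := hφ2 e' he'
  rw [hee, h1'] at h1
  have h3 : ∀ t ∈ e', x ∈ t.1 ∧ y ∈ t.1 := by
    intro t ht
    rcases Sym2.eq_iff.1 h1 with ⟨rfl, rfl⟩ | ⟨rfl, rfl⟩
    · exact h2' t ht
    · exact (h2' t ht).symm
  clear h1 h1' h2' hφ1 hφ2 hee
  induction e with
  | _ t1 t2 =>
    induction e' with
    | _ s1 s2 =>
      have n1 : t1.1 ≠ t2.1 := fun e => (F.ne_of_adj he) (Subtype.ext e)
      have n2 : s1.1 ≠ s2.1 := fun e => (F.ne_of_adj he') (Subtype.ext e)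
      have a1 := h2 t1 (by simp)
      have a2 := h2 t2 (by simp)
      have b1 := h3 s1 (by simp)
      have b2 := h3 s2 (by simp)
      have c1 := eq_or_eq hT hxy t1.2 t2.2 s1.2 n1 a1.1 a1.2 a2.1 a2.2 b1.1 b1.2
      have c2 := eq_or_eq hT hxy t1.2 t2.2 s2.2 n1 a1.1 a1.2 a2.1 a2.2 b2.1 b2.2
      rw [Sym2.eq_iff]
      rcases c1 with c1 | c1 <;> rcases c2 with c2 | c2
      · exact absurd (c1.trans c2.symm) n2
      · exact Or.inl ⟨Subtype.ext c1.symm, Subtype.ext c2.symm⟩
      · exact Or.inr ⟨Subtype.ext c2.symm, Subtype.ext c1.symm⟩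
      · exact absurd (c1.trans c2.symm) n2

/-- The skeleton stays connected when the edges crossed by a forest of the dual are deleted. -/
theorem conn_of_forest [Finite W] (hT : IsClosedSurface T) (hac : F.IsAcyclic) (x y : W) :
    ((skel T).deleteEdges (crossed T F)).Reachable x y := by
  classical
  by_contra hcon
  set Γ := (skel T).deleteEdges (crossed T F) with hΓ
  let A : Set W := {v | Γ.Reachable x v}
  have hA : ∀ a b, a ∈ A → b ∉ A → (skel T).Adj a b → s(a, b) ∈ crossed T F := by
    intro a b ha hb hab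
    by_contra hn
    apply hb
    have : Γ.Adj a b := by
      rw [hΓ, deleteEdges_adj]
      exact ⟨hab, hn⟩
    exact Reachable.trans ha this.reachable
  let B : SimpleGraph {t : Finset W // t ∈ T} :=
    { Adj := fun t t' => F.Adj t t' ∧ ∃ a b, a ∈ A ∧ b ∉ A ∧ a ∈ t.1 ∧ b ∈ t.1 ∧ a ∈ t'.1 ∧ b ∈ t'.1
      symm := ⟨fun _ _ ⟨h, a, b, h1, h2, h3, h4, h5, h6⟩ => ⟨h.symm, a, b, h1, h2, h5, h6, h3, h4⟩⟩
      loopless := ⟨fun _ h => F.loopless.irrefl _ h.1⟩ }
  have hB : B ≤ F := fun _ _ h => h.1
  have hBac : B.IsAcyclic := hac.anti hB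
  refine not_acyclic (G := B) ?_ ?_ hBac
  · obtain ⟨p⟩ := hT.conn.preconnected x y
    obtain ⟨d, -, hd1, hd2⟩ := p.exists_boundary_dart A (Reachable.refl x) hcon
    obtain ⟨-, t, t', h1, h2, h3, h4, h5⟩ := crossed_iff.1 (hA _ _ hd1 hd2 d.adj)
    exact ⟨t, t', h1, d.fst, d.snd, hd1, hd2, h2, h3, h4, h5⟩
  · rintro t t' ⟨hF, a, b, ha, hb, h1, h2, h3, h4⟩
    have hab : a ≠ b := fun e => hb (e ▸ ha)
    obtain ⟨z, hz, hza, hzb⟩ := exists_third hT t.2 hab h1 h2
    have main : ∀ c d, c ∈ A → d ∉ A → c ∈ t.1 → d ∈ t.1 → (c = z ∨ d = z) →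
        ∃ w, w ≠ t' ∧ B.Adj t w := by
      intro c d hc hd hct hdt hz'
      have hcd : c ≠ d := fun e => hd (e ▸ hc)
      obtain ⟨-, s, s', g1, g2, g3, g4, g5⟩ :=
        crossed_iff.1 (hA c d hc hd ⟨hcd, t.1, t.2, hct, hdt⟩)
      have hss : s.1 ≠ s'.1 := fun e => (F.ne_of_adj g1) (Subtype.ext e)
      have hzt' : z ∉ t'.1 := by
        intro hz2
        apply F.ne_of_adj hF
        exact Subtype.ext (eq_of_three hT t.2 t'.2 hab hza.symm hzb.symm h1 h2 hz h3 h4 hz2)
      rcases eq_or_eq hT hcd s.2 s'.2 t.2 hss g2 g3 g4 g5 hct hdt with h | h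
      · have hts : t = s := Subtype.ext h
        subst hts
        refine ⟨s', ?_, g1, c, d, hc, hd, g2, g3, g4, g5⟩
        rintro rfl
        rcases hz' with rfl | rfl
        · exact hzt' g4
        · exact hzt' g5
      · have hts : t = s' := Subtype.ext h
        subst hts
        refine ⟨s, ?_, g1.symm, c, d, hc, hd, g4, g5, g2, g3⟩
        rintro rfl
        rcases hz' with rfl | rfl
        · exact hzt' g2
        · exact hzt' g3
    by_cases hzA : z ∈ A
    · exact main z b hzA hb hz h2 (Or.inl rfl)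
    · exact main a z ha hzA h1 hz (Or.inr rfl)

/-- The boundary graph of a component of the dual forest. -/
def bdry (F : SimpleGraph {t : Finset W // t ∈ T}) (c : F.ConnectedComponent) : SimpleGraph W where
  Adj x y := x ≠ y ∧ ∃ t t' : {t : Finset W // t ∈ T}, x ∈ t.1 ∧ y ∈ t.1 ∧ x ∈ t'.1 ∧ y ∈ t'.1 ∧
    F.connectedComponentMk t = c ∧ F.connectedComponentMk t' ≠ c
  symm := ⟨fun _ _ ⟨h, t, t', h1, h2, h3, h4, h5, h6⟩ => ⟨h.symm, t, t', h2, h1, h4, h3, h5, h6⟩⟩
  loopless := ⟨fun _ h => h.1 rfl⟩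

theorem bdry_le (hreach : F.Reachable = (dual T H).Reachable) (c : F.ConnectedComponent) :
    bdry F c ≤ H := by
  rintro x y ⟨hxy, t, t', h1, h2, h3, h4, h5, h6⟩
  by_contra hn
  apply h6
  rw [← h5]
  apply ConnectedComponent.sound
  rw [hreach]
  by_cases htt : t' = t
  · rw [htt]
  · have : (dual T H).Adj t' t := ⟨htt, x, y, hxy, h3, h4, h1, h2, hn⟩
    exact this.reachable

theorem bdry_nonempty (hT : IsClosedSurface T) {c c' : F.ConnectedComponent} (hcc : c ≠ c') :
    ∃ x y, (bdry F c).Adj x y := by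
  classical
  by_contra hcon
  push Not at hcon
  obtain ⟨t₀, ht₀⟩ := c.exists_rep
  obtain ⟨t₁, ht₁⟩ := c'.exists_rep
  have h := strongly_connected hT (fun t => ∃ h : t ∈ T, F.connectedComponentMk ⟨t, h⟩ = c) ?_
    t₀.2 ⟨t₀.2, ht₀⟩ t₁.1 t₁.2
  · obtain ⟨h1, h2⟩ := h
    exact hcc (h2.symm.trans ht₁)
  · rintro t ht t' ht' x y hxy h1 h2 h3 h4 ⟨h5, h6⟩
    refine ⟨ht', ?_⟩
    by_contra h7
    exact hcon x y ⟨hxy, ⟨t, ht⟩, ⟨t', ht'⟩, h1, h2, h3, h4, h6, h7⟩

theorem bdry_two [Finite W] (hT : IsClosedSurface T) (c : F.ConnectedComponent) (w x : W)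
    (hwx : (bdry F c).Adj w x) : ∃ y, y ≠ x ∧ (bdry F c).Adj w y := by
  classical
  have := Fintype.ofFinite W
  let P : {t : Finset W // t ∈ T} → Prop := fun t => F.connectedComponentMk t = c ∧ w ∈ t.1
  let f : W → ℕ := fun x => (Finset.univ.filter (fun t : {t : Finset W // t ∈ T} =>
    P t ∧ x ∈ t.1)).card
  have hodd : ∀ y ∈ (Finset.univ.erase w : Finset W), (Odd (f y) ↔ (bdry F c).Adj w y) := by
    intro y hy
    have hyw : w ≠ y := (Finset.ne_of_mem_erase hy).symm
    constructor
    · intro ho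
      have hpos : 0 < f y := ho.pos
      obtain ⟨t, ht⟩ := Finset.card_pos.1 hpos
      simp only [Finset.mem_filter, Finset.mem_univ, true_and] at ht
      obtain ⟨⟨ht1, ht2⟩, ht3⟩ := ht
      obtain ⟨s, hs, hst, hs1, hs2⟩ := exists_other hT hyw t.2 ht2 ht3
      refine ⟨hyw, t, ⟨s, hs⟩, ht2, ht3, hs1, hs2, ht1, ?_⟩
      intro hsc
      have : f y = 2 := by
        have h2 : (Finset.univ.filter (fun t : {t : Finset W // t ∈ T} => P t ∧ y ∈ t.1)) =
            {t, ⟨s, hs⟩} := by
          ext r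
          simp only [Finset.mem_filter, Finset.mem_univ, true_and, Finset.mem_insert,
            Finset.mem_singleton]
          constructor
          · rintro ⟨⟨hr1, hr2⟩, hr3⟩
            rcases eq_or_eq hT hyw t.2 hs r.2 hst.symm ht2 ht3 hs1 hs2 hr2 hr3 with h | h
            · exact Or.inl (Subtype.ext h)
            · exact Or.inr (Subtype.ext h)
          · rintro (rfl | rfl)
            · exact ⟨⟨ht1, ht2⟩, ht3⟩
            · exact ⟨⟨hsc, hs1⟩, hs2⟩
        simp only [f]
        rw [h2, Finset.card_pair]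
        intro e
        exact hst (congrArg Subtype.val e).symm
      rw [this] at ho
      exact absurd ho (by decide)
    · rintro ⟨-, t, t', h1, h2, h3, h4, h5, h6⟩
      have htt : t.1 ≠ t'.1 := by
        intro e
        have : t = t' := Subtype.ext e
        rw [this] at h5
        exact h6 h5
      have : f y = 1 := by
        have h7 : (Finset.univ.filter (fun t : {t : Finset W // t ∈ T} => P t ∧ y ∈ t.1)) =
            {t} := by
          ext r
          simp only [Finset.mem_filter, Finset.mem_univ, true_and, Finset.mem_singleton]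
          constructor
          · rintro ⟨⟨hr1, hr2⟩, hr3⟩
            rcases eq_or_eq hT hyw t.2 t'.2 r.2 htt h1 h2 h3 h4 hr2 hr3 with h | h
            · exact Subtype.ext h
            · have : r = t' := Subtype.ext h
              rw [this] at hr1
              exact absurd hr1 h6
          · rintro rfl
            exact ⟨⟨h5, h1⟩, h2⟩
        simp only [f]
        rw [h7, Finset.card_singleton]
      rw [this]
      exact odd_one
  have heven : Even (∑ y ∈ (Finset.univ.erase w : Finset W), f y) := by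
    have h1 : ∑ y ∈ (Finset.univ.erase w : Finset W), f y =
        ∑ t ∈ (Finset.univ.filter (fun t : {t : Finset W // t ∈ T} => P t)),
          (Finset.filter (fun y => y ∈ t.1) (Finset.univ.erase w)).card := by
      have := Finset.sum_card_bipartiteAbove_eq_sum_card_bipartiteBelow
        (s := (Finset.univ.erase w : Finset W))
        (t := (Finset.univ.filter (fun t : {t : Finset W // t ∈ T} => P t)))
        (fun y t => y ∈ t.1)
      simp only [Finset.bipartiteAbove, Finset.bipartiteBelow, Finset.filter_filter] at this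
      exact this
    rw [h1]
    apply Finset.even_sum
    intro t ht
    simp only [Finset.mem_filter, Finset.mem_univ, true_and] at ht
    have h2 : Finset.filter (fun y => y ∈ t.1) (Finset.univ.erase w) = t.1.erase w := by
      ext y
      simp only [Finset.mem_filter, Finset.mem_erase, Finset.mem_univ, and_true]
    rw [h2, Finset.card_erase_of_mem ht.2, hT.card_eq t.1 t.2]
    decide
  rw [Finset.even_sum_iff_even_card_odd] at heven
  by_contra hcon
  push Not at hcon
  have h3 : Finset.filter (fun y => Odd (f y)) (Finset.univ.erase w : Finset W) = {x} := by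
    ext y
    simp only [Finset.mem_filter, Finset.mem_singleton]
    constructor
    · rintro ⟨h1, h2⟩
      by_contra hyx
      exact hcon y hyx ((hodd y h1).1 h2)
    · rintro rfl
      have : y ∈ (Finset.univ.erase w : Finset W) := by
        simp only [Finset.mem_erase, Finset.mem_univ, and_true]
        exact hwx.1.symm
      exact ⟨this, (hodd y this).2 hwx⟩
  rw [h3, Finset.card_singleton] at heven
  exact absurd heven (by decide)

/-- **Euler's inequality for subgraphs of girth at least seven.** -/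
theorem euler_ineq [Finite W] (hT : IsClosedSurface T) {g : ℕ} (hχ : eulerChar T = 2 - (g : ℤ))
    (hH : H ≤ skel T)
    (hg : ∀ B : SimpleGraph W, B ≤ H → (∃ u v, B.Adj u v) →
      (∀ u v, B.Adj u v → ∃ w, w ≠ v ∧ B.Adj u w) → 7 ≤ B.edgeSet.ncard)
    {U : Set W} (hU : U.Nonempty)
    (hHU : ∀ x y, H.Adj x y → x ∈ U) :
    5 * (H.edgeSet.ncard : ℤ) ≤ 7 * ((U.ncard : ℤ) + g) := by
  classical
  obtain ⟨F, hF, hac, hreach⟩ := (dual T H).exists_isAcyclic_reachable_eq_le
  -- (b)
  have hb : Uᶜ.ncard + F.edgeSet.ncard + H.edgeSet.ncard ≤ (skel T).edgeSet.ncard := by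
    have h1 : ∀ v, ∃ r ∈ U, ((skel T).deleteEdges (crossed T F)).Reachable v r := by
      obtain ⟨u, hu⟩ := hU
      exact fun v => ⟨u, hu, conn_of_forest hT hac v u⟩
    have h2 := card_compl_le h1
    set S1 := {e | e ∈ ((skel T).deleteEdges (crossed T F)).edgeSet ∧ ¬ ∀ x ∈ e, x ∈ U} with hS1
    have h3 : Disjoint S1 (crossed T F) := by
      rw [Set.disjoint_left]
      rintro e ⟨he, -⟩ hc
      rw [edgeSet_deleteEdges] at he
      exact he.2 hc
    have h4 : Disjoint (S1 ∪ crossed T F) H.edgeSet := by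
      rw [Set.disjoint_left]
      intro e
      induction e with
      | _ x y =>
        rintro (⟨he, he2⟩ | he) hc
        · apply he2
          intro z hz
          rcases Sym2.mem_iff.1 hz with rfl | rfl
          · exact hHU _ _ hc
          · exact hHU _ _ (H.adj_symm hc)
        · exact crossed_not_adj hT hF he hc
    have h5 : (S1 ∪ crossed T F) ∪ H.edgeSet ⊆ (skel T).edgeSet := by
      rintro e ((⟨he, -⟩ | he) | he)
      · rw [edgeSet_deleteEdges] at he
        exact he.1
      · exact crossed_sub he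
      · exact edgeSet_mono hH he
    have h6 := Set.ncard_le_ncard h5 (Set.toFinite _)
    rw [Set.ncard_union_eq h4, Set.ncard_union_eq h3] at h6
    have h7 := card_crossed hT hF
    omega
  -- (c)
  have hc := card_le_comp_add_edges F
  have hcT : Nat.card {t : Finset W // t ∈ T} = T.card := by
    rw [Nat.card_eq_fintype_card, Fintype.card_coe]
  have hUc := Set.ncard_add_ncard_compl U
  unfold eulerChar at hχ
  rw [hcT] at hc
  set f' := Nat.card F.ConnectedComponent with hf'
  have hmain : (H.edgeSet.ncard : ℤ) + 2 - g - U.ncard ≤ f' := by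
    zify at hb hc hUc
    omega
  by_cases h1 : f' ≤ 1
  · have h2 : (f' : ℤ) ≤ 1 := by exact_mod_cast h1
    have h3 : (0 : ℤ) ≤ U.ncard := by positivity
    have h4 : (0 : ℤ) ≤ g := by positivity
    omega
  · have h2 : 7 * f' ≤ 2 * H.edgeSet.ncard := by
      have : Fintype F.ConnectedComponent := Fintype.ofFinite _
      have : Fintype W := Fintype.ofFinite _
      have h3 : ∀ c : F.ConnectedComponent, 7 ≤ (bdry F c).edgeSet.ncard := by
        intro c
        have : ∃ c' : F.ConnectedComponent, c ≠ c' := by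
          have h4 : 1 < Fintype.card F.ConnectedComponent := by
            rw [← Nat.card_eq_fintype_card]
            omega
          obtain ⟨c', hc'⟩ := Fintype.exists_ne_of_one_lt_card h4 c
          exact ⟨c', hc'.symm⟩
        obtain ⟨c', hcc⟩ := this
        exact hg _ (bdry_le hreach c) (bdry_nonempty hT hcc) (bdry_two hT c)
      have h4 : ∀ c : F.ConnectedComponent, 7 ≤
          (H.edgeSet.toFinset.filter (fun e => e ∈ (bdry F c).edgeSet)).card := by
        intro c
        refine (h3 c).trans ?_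
        rw [← Set.ncard_coe_finset]
        apply Set.ncard_le_ncard _ (Set.toFinite _)
        intro e he
        simp only [Finset.coe_filter, Set.mem_toFinset, Set.mem_ofPred_eq]
        exact ⟨edgeSet_mono (bdry_le hreach c) he, he⟩
      have h5 : 7 * f' ≤ ∑ c : F.ConnectedComponent,
          (H.edgeSet.toFinset.filter (fun e => e ∈ (bdry F c).edgeSet)).card := by
        have := Finset.card_nsmul_le_sum (Finset.univ : Finset F.ConnectedComponent)
          (fun c => (H.edgeSet.toFinset.filter (fun e => e ∈ (bdry F c).edgeSet)).card) 7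
          (fun c _ => h4 c)
        rw [Finset.card_univ, ← Nat.card_eq_fintype_card, smul_eq_mul] at this
        omega
      have h6 : ∑ c : F.ConnectedComponent,
          (H.edgeSet.toFinset.filter (fun e => e ∈ (bdry F c).edgeSet)).card =
          ∑ e ∈ H.edgeSet.toFinset,
            (Finset.univ.filter (fun c : F.ConnectedComponent => e ∈ (bdry F c).edgeSet)).card := by
        have := Finset.sum_card_bipartiteAbove_eq_sum_card_bipartiteBelow
          (s := (Finset.univ : Finset F.ConnectedComponent)) (t := H.edgeSet.toFinset)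
          (fun c e => e ∈ (bdry F c).edgeSet)
        simpa only [Finset.bipartiteAbove, Finset.bipartiteBelow] using this
      have h7 : ∀ e ∈ H.edgeSet.toFinset,
          (Finset.univ.filter (fun c : F.ConnectedComponent => e ∈ (bdry F c).edgeSet)).card
            ≤ 2 := by
        intro e
        induction e with
        | _ x y =>
          intro he
          rw [Set.mem_toFinset] at he
          have hxy : (skel T).Adj x y := hH he
          obtain ⟨-, s, hs, hs1, hs2⟩ := hxy
          obtain ⟨t, ht, hts, ht1, ht2⟩ := exists_other hT (H.ne_of_adj he) hs hs1 hs2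
          have hsub : Finset.univ.filter (fun c : F.ConnectedComponent =>
              s(x, y) ∈ (bdry F c).edgeSet) ⊆
              {F.connectedComponentMk ⟨s, hs⟩, F.connectedComponentMk ⟨t, ht⟩} := by
            intro c hc
            simp only [Finset.mem_filter, Finset.mem_univ, true_and, mem_edgeSet] at hc
            obtain ⟨-, r, r', h1, h2, h3, h4, h5, h6⟩ := hc
            simp only [Finset.mem_insert, Finset.mem_singleton]
            rcases eq_or_eq hT (H.ne_of_adj he) hs ht r.2 hts.symm hs1 hs2 ht1 ht2 h1 h2 with h | h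
            · left
              rw [← h5]
              congr 1
              exact Subtype.ext h
            · right
              rw [← h5]
              congr 1
              exact Subtype.ext h
          exact (Finset.card_le_card hsub).trans Finset.card_le_two
      have h8 := Finset.sum_le_card_nsmul H.edgeSet.toFinset _ 2 h7
      rw [smul_eq_mul, ← Set.ncard_eq_toFinset_card'] at h8
      omega
    zify at h2
    omega

end Pool.Agent.H968R3
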