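import Pool.Agent.H968R3.Reduce

set_option autoImplicit false

namespace Pool.Agent.H968R3

open SimpleGraph

variable {V : Type}

theorem exists_reducible [Finite V] {G : SimpleGraph V} {g k : ℕ} (hk : 27 ≤ k) {U : Set V}
    (hE : 5 * ((inside G U).edgeSet.ncard : ℤ) ≤ 7 * ((U.ncard : ℤ) + g))
    (hU : 29 * g < U.ncard) :
    ∃ v ∈ U, degOn G U v ≤ 1 ∨
      (degOn G U v ≤ k ∧ ∀ x ∈ U, G.Adj v x → degOn G U x ≤ k + 1) := by
  classical
  by_contra hcon
  push Not at hcon
  have := Fintype.ofFinite V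
  have hdeg : ∀ v ∈ U, (inside G U).degree v = degOn G U v := by
    intro v hv
    unfold degOn
    rw [← card_neighborSet_eq_degree, ← Nat.card_eq_fintype_card, Nat.card_coe_set_eq]
    congr 1
    ext w
    constructor
    · rintro ⟨h1, -, h2⟩
      exact ⟨h1, h2⟩
    · rintro ⟨h1, h2⟩
      exact ⟨h1, hv, h2⟩
  have hsum := (inside G U).sum_degrees_eq_twice_card_edges
  have hE2 : (inside G U).edgeFinset.card = (inside G U).edgeSet.ncard := by
    rw [← coe_edgeFinset, Set.ncard_coe_finset]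
  have h1 : ∑ v ∈ U.toFinset, degOn G U v ≤ 2 * (inside G U).edgeSet.ncard := by
    rw [← hE2, ← hsum]
    have h2 : ∑ v ∈ U.toFinset, degOn G U v = ∑ v ∈ U.toFinset, (inside G U).degree v := by
      apply Finset.sum_congr rfl
      intro v hv
      rw [Set.mem_toFinset] at hv
      exact (hdeg v hv).symm
    rw [h2]
    exact Finset.sum_le_sum_of_subset (Finset.subset_univ _)
  set Lf := U.toFinset.filter (fun v => degOn G U v ≤ k) with hLf
  set Hf := U.toFinset.filter (fun v => ¬ degOn G U v ≤ k) with hHf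
  have h2 : ∑ v ∈ Lf, degOn G U v + ∑ v ∈ Hf, degOn G U v = ∑ v ∈ U.toFinset, degOn G U v :=
    Finset.sum_filter_add_sum_filter_not _ _ _
  have h3 : Lf.card + Hf.card = U.ncard := by
    rw [Finset.card_filter_add_card_filter_not, ← Set.ncard_eq_toFinset_card']
  have h4 : 2 * Lf.card ≤ ∑ v ∈ Lf, degOn G U v := by
    have := Finset.card_nsmul_le_sum Lf (fun v => degOn G U v) 2 (by
      intro v hv
      rw [hLf, Finset.mem_filter, Set.mem_toFinset] at hv
      exact (hcon v hv.1).1)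
    rw [smul_eq_mul] at this
    omega
  have h5 : 28 * Hf.card ≤ ∑ v ∈ Hf, degOn G U v := by
    have := Finset.card_nsmul_le_sum Hf (fun v => degOn G U v) 28 (by
      intro v hv
      rw [hHf, Finset.mem_filter, Set.mem_toFinset] at hv
      have := hv.2
      omega)
    rw [smul_eq_mul] at this
    omega
  have h6 : Lf.card ≤ ∑ v ∈ Hf, degOn G U v := by
    have hex : ∀ v ∈ Lf, ∃ x, x ∈ U ∧ G.Adj v x ∧ k + 1 < degOn G U x := by
      intro v hv
      rw [hLf, Finset.mem_filter, Set.mem_toFinset] at hv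
      obtain ⟨x, hx1, hx2, hx3⟩ := (hcon v hv.1).2 hv.2
      exact ⟨x, hx1, hx2, hx3⟩
    choose! x hx1 hx2 hx3 using hex
    have hmaps : ∀ v ∈ Lf, x v ∈ Hf := by
      intro v hv
      rw [hHf, Finset.mem_filter, Set.mem_toFinset]
      have := hx3 v hv
      exact ⟨hx1 v hv, by omega⟩
    rw [Finset.card_eq_sum_card_fiberwise hmaps]
    apply Finset.sum_le_sum
    intro y _
    unfold degOn
    rw [← Set.ncard_coe_finset]
    apply Set.ncard_le_ncard _ (Set.toFinite _)
    intro v hv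
    rw [Finset.coe_filter] at hv
    obtain ⟨hv1, hv2⟩ := hv
    have hvU : v ∈ U := by
      rw [hLf, Finset.mem_filter, Set.mem_toFinset] at hv1
      exact hv1.1
    exact ⟨by rw [← hv2]; exact (hx2 v hv1).symm, hvU⟩
  zify at h1 h2 h3 h4 h5 h6 hU
  omega

theorem zeroColOn_all [Finite V] {G : SimpleGraph V} {g k r : ℕ} (hr : 1 ≤ r) (hk : 27 ≤ k)
    (hkr : 29 * g < k ^ r) (hg : ((6 * r : ℕ) : ℕ∞) < G.egirth) (hemb : EmbedsEulerGenus G g) :
    ∀ (n : ℕ) (U : Set V), U.ncard = n → ZeroColOn G U k := by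
  classical
  have hg6 : ((6 : ℕ) : ℕ∞) < G.egirth := by
    refine lt_of_le_of_lt ?_ hg
    exact_mod_cast (by omega : 6 ≤ 6 * r)
  have hg7 : ((7 : ℕ) : ℕ∞) ≤ G.egirth := by
    have := Order.add_one_le_of_lt hg6
    exact_mod_cast this
  have htri := triangle_free hg6
  intro n
  induction n with
  | zero =>
    intro U hU
    rw [Set.ncard_eq_zero (Set.toFinite _)] at hU
    subst hU
    exact ⟨∅, by simp, by simp, by simp⟩
  | succ n ih =>
    intro U hU
    by_cases hbig : 29 * g < U.ncard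
    · have hne : U.Nonempty := by
        apply (Set.ncard_pos (Set.toFinite _)).1
        omega
      obtain ⟨v, hv, h1⟩ := exists_reducible hk (euler_on hemb hg7 hne) hbig
      have h2 : (U \ {v}).ncard = n := by
        rw [Set.ncard_sdiff_singleton_of_mem hv, hU]
        rfl
      rcases h1 with h1 | ⟨h1, h3⟩
      · exact reduce_one hv h1 (ih _ h2)
      · exact reduce_two hv htri h1 h3 (ih _ h2)
    · have h1 : Nat.card U < k ^ r := by
        rw [Nat.card_coe_set_eq]
        omega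
      have h2 : ((6 * r : ℕ) : ℕ∞) < (G.induce U).egirth :=
        hg.trans_le (IsContained.egirth_le ⟨(SimpleGraph.Embedding.induce U).toCopy⟩)
      obtain ⟨I, hI1, hI2⟩ := zeroCol_of_card hr h2 h1
      refine ⟨Subtype.val '' I, ?_, ?_, ?_⟩
      · rintro _ ⟨x, -, rfl⟩
        exact x.2
      · rintro _ ⟨x, hx, rfl⟩ _ ⟨y, hy, rfl⟩ hxy
        exact hI1 x hx y hy hxy
      · intro v hv hvI
        have h3 : (⟨v, hv⟩ : U) ∉ I := fun h => hvI ⟨_, h, rfl⟩
        refine le_trans ?_ (hI2 _ h3)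
        rw [← Set.ncard_image_of_injective _ Subtype.val_injective]
        apply Set.ncard_le_ncard _ (Set.toFinite _)
        rintro w ⟨hw1, hw2, hw3⟩
        exact ⟨⟨w, hw2⟩, ⟨hw1, fun h => hw3 ⟨_, h, rfl⟩⟩, rfl⟩

/-- The main theorem in finite form. -/
theorem zeroCol_of_genus [Finite V] {G : SimpleGraph V} {g k r : ℕ} (hr : 1 ≤ r) (hk : 27 ≤ k)
    (hkr : 29 * g < k ^ r) (hg : ((6 * r : ℕ) : ℕ∞) < G.egirth) (hemb : EmbedsEulerGenus G g) :
    ZeroCol G k := by
  obtain ⟨I, -, h1, h2⟩ := zeroColOn_all hr hk hkr hg hemb _ Set.univ rfl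
  refine ⟨I, h1, ?_⟩
  intro v hv
  have := h2 v trivial hv
  simpa using this

end Pool.Agent.H968R3
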