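import Mathlib

set_option autoImplicit false

namespace Pool.Agent.H968R3

open SimpleGraph

variable {V : Type}

/-- A finite graph with an edge in which no vertex has exactly one neighbour has a cycle. -/
theorem not_acyclic [Finite V] {G : SimpleGraph V} (hne : ∃ u v, G.Adj u v)
    (h2 : ∀ u v, G.Adj u v → ∃ w, w ≠ v ∧ G.Adj u w) : ¬ G.IsAcyclic := by
  intro hac
  obtain ⟨a, b, hab⟩ := hne
  have : Nonempty V := ⟨a⟩
  obtain ⟨u, v, p, hp, hmax⟩ := Walk.exists_isPath_forall_isPath_length_le_length G
  have hnil : ¬ p.Nil := by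
    intro hn
    have h1 := hmax a b (Walk.cons hab Walk.nil) (by simp [Walk.cons_isPath_iff, hab.ne])
    rw [Walk.length_eq_zero_iff.2 hn] at h1
    simp at h1
  obtain ⟨w, hw, huw⟩ := h2 u p.snd (p.adj_snd hnil)
  have h1 : w ∉ p.support := fun hs => hw (hac.eq_snd_of_adj_start hp huw hs)
  have h3 := hmax w v (Walk.cons huw.symm p) (by rw [Walk.cons_isPath_iff]; exact ⟨hp, h1⟩)
  rw [Walk.length_cons] at h3
  omega

/-- If every vertex can be joined to the set `R`, then at least `|V \ R|` edges are not inside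
`R`. -/
theorem card_compl_le [Finite V] {G : SimpleGraph V} {R : Set V}
    (hR : ∀ v, ∃ r ∈ R, G.Reachable v r) :
    Rᶜ.ncard ≤ {e | e ∈ G.edgeSet ∧ ¬ ∀ x ∈ e, x ∈ R}.ncard := by
  classical
  -- distance to `R`
  let P : V → ℕ → Prop := fun v n => ∃ r ∈ R, ∃ p : G.Walk v r, p.length = n
  have hP : ∀ v, ∃ n, P v n := fun v => by
    obtain ⟨r, hr, ⟨p⟩⟩ := hR v
    exact ⟨p.length, r, hr, p, rfl⟩
  let δ : V → ℕ := fun v => Nat.find (hP v)
  have hδ : ∀ v, P v (δ v) := fun v => Nat.find_spec (hP v)
  have hδle : ∀ v n, P v n → δ v ≤ n := fun v n h => Nat.find_min' (hP v) h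
  have hstep : ∀ v, v ∉ R → ∃ w, G.Adj v w ∧ δ w < δ v := by
    intro v hv
    obtain ⟨r, hr, p, hp⟩ := hδ v
    cases p with
    | nil => exact absurd hr hv
    | cons h q =>
      refine ⟨_, h, ?_⟩
      rw [← hp, Walk.length_cons]
      exact Nat.lt_succ_of_le (hδle _ _ ⟨r, hr, q, rfl⟩)
  choose! nx hnx1 hnx2 using hstep
  refine Set.ncard_le_ncard_of_injOn (fun v => s(v, nx v)) ?_ ?_ (Set.toFinite _)
  · intro v hv
    refine ⟨hnx1 v hv, ?_⟩
    intro hall
    exact hv (hall v (by simp))
  · intro v hv w hw hvw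
    simp only [Sym2.eq_iff] at hvw
    rcases hvw with h | ⟨h1, h2⟩
    · exact h.1
    · have h3 := hnx2 v hv
      have h4 := hnx2 w hw
      rw [h2] at h3
      rw [← h1] at h4
      omega

/-- The number of components is at least the number of vertices minus the number of edges. -/
theorem card_le_comp_add_edges [Finite V] (G : SimpleGraph V) :
    Nat.card V ≤ Nat.card G.ConnectedComponent + G.edgeSet.ncard := by
  classical
  let R : Set V := Set.range (fun c : G.ConnectedComponent => c.out)
  have h1 : R.ncard = Nat.card G.ConnectedComponent := by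
    have h0 : R = (fun c : G.ConnectedComponent => Quot.out c) '' Set.univ := by
      rw [Set.image_univ]
    have hinj : Function.Injective (fun c : G.ConnectedComponent => Quot.out c) := by
      intro a b hab
      have h9 : Quot.mk G.Reachable (Quot.out a) = Quot.mk G.Reachable (Quot.out b) :=
        congrArg (Quot.mk G.Reachable) hab
      exact (Quot.out_eq a).symm.trans (h9.trans (Quot.out_eq b))
    rw [h0, Set.ncard_image_of_injective _ hinj, Set.ncard_univ]
  have h2 : ∀ v, ∃ r ∈ R, G.Reachable v r := by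
    intro v
    refine ⟨(G.connectedComponentMk v).out, ⟨_, rfl⟩, ?_⟩
    have : G.connectedComponentMk v = G.connectedComponentMk (G.connectedComponentMk v).out :=
      (Quot.out_eq _).symm
    exact ConnectedComponent.exact this
  have h3 := card_compl_le h2
  have h4 : {e | e ∈ G.edgeSet ∧ ¬ ∀ x ∈ e, x ∈ R}.ncard ≤ G.edgeSet.ncard :=
    Set.ncard_le_ncard (fun e he => he.1) (Set.toFinite _)
  have h5 := Set.ncard_add_ncard_compl R
  omega

/-- A finite graph with an edge in which no vertex has exactly one neighbour has at least as many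
edges as the girth of any graph containing it. -/
theorem le_card_edges [Finite V] {B H : SimpleGraph V} {L : ℕ} (hL : (L : ℕ∞) ≤ H.egirth)
    (hBH : B ≤ H) (hne : ∃ u v, B.Adj u v)
    (h2 : ∀ u v, B.Adj u v → ∃ w, w ≠ v ∧ B.Adj u w) : L ≤ B.edgeSet.ncard := by
  classical
  have h := not_acyclic hne h2
  unfold SimpleGraph.IsAcyclic at h
  push Not at h
  obtain ⟨v, c, hc⟩ := h
  have h1 : (L : ℕ∞) ≤ (c.mapLe hBH).length := hL.trans (egirth_le_length (hc.mapLe hBH))
  rw [Walk.length_map] at h1
  have h3 : L ≤ c.length := by exact_mod_cast h1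
  have := Fintype.ofFinite B.edgeSet
  have h4 : c.length ≤ B.edgeFinset.card := hc.isTrail.length_le_card_edgeFinset
  rw [← coe_edgeFinset, Set.ncard_coe_finset]
  omega

end Pool.Agent.H968R3
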