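import Pool.Agent.H968R3.Color

set_option autoImplicit false

namespace Pool.Agent.H968R3

open SimpleGraph

variable {V : Type}

/-- short paths are unique -/
theorem path_uniq {G : SimpleGraph V} {L : ℕ} (hg : (L : ℕ∞) < G.egirth) {u v : V}
    {p q : G.Walk u v} (hp : p.IsPath) (hq : q.IsPath) (h : p.length + q.length ≤ L) : p = q := by
  by_contra hne
  obtain ⟨w, -, -, c, hc, hl⟩ := hp.exists_isCycle_length_le_add_of_ne hq hne
  have h1 := hg.trans_le (egirth_le_length hc)
  have h2 : L < c.length := by exact_mod_cast h1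
  omega

/-- Extension step: if `p` is a path from `y` avoiding its neighbour `b`, then `p` also avoids
every neighbour `a ≠ y` of `b`. -/
theorem avoid_ext {G : SimpleGraph V} {L : ℕ} (hg : (L : ℕ∞) < G.egirth) {y z a b : V}
    {p : G.Walk y z} (hp : p.IsPath) (hb : b ∉ p.support) (hby : G.Adj b y) (hab : G.Adj a b)
    (hay : a ≠ y) (hL : p.length + 2 ≤ L) : a ∉ p.support := by
  classical
  intro ha
  have h1 : (p.takeUntil a ha).IsPath := hp.takeUntil ha
  have hb1 : b ∉ (p.takeUntil a ha).support := fun h => hb (p.support_takeUntil_subset_support ha h)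
  let q : G.Walk y a := Walk.cons hby.symm (Walk.cons hab.symm Walk.nil)
  have hq : q.IsPath := by
    simp only [q, Walk.cons_isPath_iff, Walk.IsPath.nil, Walk.support_cons,
      Walk.support_nil, List.mem_cons, List.not_mem_nil, or_false, true_and]
    refine ⟨hab.ne', ?_⟩
    rintro (h | h)
    · exact hby.ne' h
    · exact hay h.symm
  have hlen : (p.takeUntil a ha).length ≤ p.length := p.length_takeUntil_le_length ha
  have := path_uniq hg h1 hq (by simp only [q, Walk.length_cons, Walk.length_nil]; omega)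
  rw [this] at hb1
  apply hb1
  simp [q]

/-- endpoints of short paths from `y` avoiding `b` -/
def X (G : SimpleGraph V) (L : ℕ) (y b : V) : Set V :=
  {z | ∃ p : G.Walk y z, p.IsPath ∧ p.length ≤ L ∧ b ∉ p.support}

theorem X_mono {G : SimpleGraph V} {L L' : ℕ} (h : L ≤ L') (y b : V) :
    X G L y b ⊆ X G L' y b := by
  rintro z ⟨p, h1, h2, h3⟩
  exact ⟨p, h1, h2.trans h, h3⟩

/-- one step backwards -/
theorem X_step {G : SimpleGraph V} {L M : ℕ} (hg : (M : ℕ∞) < G.egirth) {y a b : V}
    (hby : G.Adj b y) (hab : G.Adj a b) (hay : a ≠ y) (hL : L + 2 ≤ M) :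
    X G L y b ⊆ X G (L + 1) b a := by
  rintro z ⟨p, h1, h2, h3⟩
  refine ⟨Walk.cons hby p, ?_, ?_, ?_⟩
  · rw [Walk.cons_isPath_iff]
    exact ⟨h1, h3⟩
  · rw [Walk.length_cons]
    omega
  · rw [Walk.support_cons, List.mem_cons]
    rintro (h | h)
    · exact hab.ne h
    · exact avoid_ext hg h1 h3 hby hab hay (by omega) h

/-- Sets reached through different first neighbours are disjoint. -/
theorem X_disj {G : SimpleGraph V} {L M : ℕ} (hg : (M : ℕ∞) < G.egirth) {y a a' : V}
    (ha : G.Adj y a) (ha' : G.Adj y a') (hne : a ≠ a') (hL : 2 * (L + 1) ≤ M) :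
    Disjoint (X G L a y) (X G L a' y) := by
  rw [Set.disjoint_left]
  rintro z ⟨p, h1, h2, h3⟩ ⟨q, h4, h5, h6⟩
  have := path_uniq hg (p := Walk.cons ha p) (q := Walk.cons ha' q)
    (by rw [Walk.cons_isPath_iff]; exact ⟨h1, h3⟩) (by rw [Walk.cons_isPath_iff]; exact ⟨h4, h6⟩)
    (by simp only [Walk.length_cons]; omega)
  have h7 := congrArg (fun w : G.Walk y z => w.getVert 1) this
  simp only [Walk.getVert_cons_succ, Walk.getVert_zero] at h7
  exact hne h7

theorem card_biUnion_ge [Finite V] {d D : ℕ} (T : Set V) (f : V → Set V)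
    (hdisj : ∀ a ∈ T, ∀ b ∈ T, a ≠ b → Disjoint (f a) (f b)) (hT : d ≤ T.ncard)
    (hf : ∀ a ∈ T, D ≤ (f a).ncard) : d * D ≤ (⋃ a ∈ T, f a).ncard := by
  classical
  have := Fintype.ofFinite V
  have h1 : (⋃ a ∈ T, f a) = ((T.toFinset.biUnion (fun a => (f a).toFinset) : Finset V) : Set V) := by
    ext x
    simp
  rw [h1, Set.ncard_coe_finset, Finset.card_biUnion]
  · have h2 : T.toFinset.card • D ≤ ∑ a ∈ T.toFinset, (f a).toFinset.card := by
      apply Finset.card_nsmul_le_sum
      intro a ha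
      rw [← Set.ncard_eq_toFinset_card']
      exact hf a (by simpa using ha)
    have h3 : T.toFinset.card = T.ncard := (Set.ncard_eq_toFinset_card' T).symm
    rw [h3, smul_eq_mul] at h2
    exact (Nat.mul_le_mul_right D hT).trans h2
  · intro a ha b hb hab
    have := hdisj a (by simpa using ha) b (by simpa using hb) hab
    simpa [Set.disjoint_toFinset] using this

/-- Reaching `S` through a bad neighbour. -/
theorem seg {G : SimpleGraph V} {S : Set V} {M j : ℕ} (hg : (M : ℕ∞) < G.egirth)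
    (hM : 3 * j + 3 ≤ M) {w a : V} (ha : a ∈ Bad G (S \ {w}) w) :
    ∃ y ∈ S, ∃ b, G.Adj b y ∧ X G (3 * j) y b ⊆ X G (3 * j + 2) a w := by
  obtain ⟨hwa, ha⟩ := ha
  by_cases haS : a ∈ S \ {w}
  · exact ⟨a, haS.1, w, hwa, X_mono (by omega) _ _⟩
  · rcases ha with ha | ⟨z, hz, haz⟩ | ⟨b, z, hz, hbw, hab, hbz⟩
    · exact absurd ha haS
    · refine ⟨z, hz.1, a, haz, ?_⟩
      exact (X_step hg haz hwa (Ne.symm hz.2) (by omega)).trans (X_mono (by omega) _ _)
    · have haz : a ≠ z := fun e => haS (e ▸ hz)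
      refine ⟨z, hz.1, b, hbz, ?_⟩
      exact (X_step hg hbz hab haz (by omega)).trans
        (X_step hg hab hwa hbw.symm (by omega))

theorem grow [Finite V] {G : SimpleGraph V} {S : Set V} {d r : ℕ}
    (hg : ((6 * r : ℕ) : ℕ∞) < G.egirth)
    (hS : ∀ w ∈ S, d + 1 ≤ (Bad G (S \ {w}) w).ncard) :
    ∀ j, j < r → ∀ y ∈ S, ∀ b, G.Adj b y → d ^ j ≤ (X G (3 * j) y b).ncard := by
  intro j
  induction j with
  | zero =>
    intro _ y _ b hb
    rw [pow_zero]
    apply (Set.ncard_pos (Set.toFinite _)).2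
    exact ⟨y, Walk.nil, by simp, by simp, by simpa using hb.ne⟩
  | succ j ih =>
    intro hj y hy b hb
    have h1 : d ≤ (Bad G (S \ {y}) y \ {b}).ncard := by
      have h2 := hS y hy
      have h3 := Set.ncard_le_ncard_sdiff_add_ncard (Bad G (S \ {y}) y) {b}
      rw [Set.ncard_singleton] at h3
      omega
    have h2 := card_biUnion_ge (d := d) (D := d ^ j) (Bad G (S \ {y}) y \ {b})
      (fun a => X G (3 * j + 2) a y)
      (fun a ha a' ha' hne => X_disj hg ha.1.1 ha'.1.1 hne (by omega)) h1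
      (fun a ha => by
        obtain ⟨y', hy', b', hb', hsub⟩ := seg (M := 6 * r) (j := j) hg (by omega) ha.1
        exact (ih (by omega) y' hy' b' hb').trans (Set.ncard_le_ncard hsub (Set.toFinite _)))
    rw [pow_succ, mul_comm]
    refine h2.trans (Set.ncard_le_ncard ?_ (Set.toFinite _))
    intro z hz
    simp only [Set.mem_iUnion] at hz
    obtain ⟨a, ha, hz⟩ := hz
    have : X G (3 * j + 2) a y ⊆ X G (3 * j + 2 + 1) y b :=
      X_step hg ha.1.1 hb (fun e => ha.2 (by rw [e]; rfl)) (by omega)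
    exact this hz

/-- **Lemma B.** -/
theorem exists_small_bad [Finite V] {G : SimpleGraph V} {S : Set V} {d r : ℕ} (hr : 1 ≤ r)
    (hg : ((6 * r : ℕ) : ℕ∞) < G.egirth) (hV : Nat.card V < d ^ r) (hne : S.Nonempty) :
    ∃ w ∈ S, (Bad G (S \ {w}) w).ncard ≤ d := by
  by_contra hcon
  push Not at hcon
  obtain ⟨y, hy⟩ := hne
  obtain ⟨j, rfl⟩ : ∃ j, r = j + 1 := ⟨r - 1, by omega⟩
  have h2 := card_biUnion_ge (d := d) (D := d ^ j) (Bad G (S \ {y}) y)
    (fun a => X G (3 * j + 2) a y)
    (fun a ha a' ha' hne => X_disj hg ha.1 ha'.1 hne (by omega)) (hcon y hy).le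
    (fun a ha => by
      obtain ⟨y', hy', b', hb', hsub⟩ := seg (M := 6 * (j + 1)) (j := j) hg (by omega) ha
      exact (grow hg hcon j (by omega) y' hy' b' hb').trans
        (Set.ncard_le_ncard hsub (Set.toFinite _)))
  have h3 : (⋃ a ∈ Bad G (S \ {y}) y, X G (3 * j + 2) a y).ncard ≤ Nat.card V :=
    Set.ncard_le_card _
  rw [pow_succ, mul_comm] at hV
  omega

theorem Bad_mono {G : SimpleGraph V} {S T : Set V} (h : S ⊆ T) (w : V) :
    Bad G S w ⊆ Bad G T w := by
  rintro a ⟨h1, h2 | ⟨z, hz, h2⟩ | ⟨b, z, hz, h2, h3, h4⟩⟩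
  · exact ⟨h1, Or.inl (h h2)⟩
  · exact ⟨h1, Or.inr (Or.inl ⟨z, h hz, h2⟩)⟩
  · exact ⟨h1, Or.inr (Or.inr ⟨b, z, h hz, h2, h3, h4⟩)⟩

/-- ordering of a finite set -/
theorem exists_order [Finite V] {G : SimpleGraph V} {d r : ℕ} (hr : 1 ≤ r)
    (hg : ((6 * r : ℕ) : ℕ∞) < G.egirth) (hV : Nat.card V < d ^ r) :
    ∀ (n : ℕ) (S : Set V), S.ncard = n → ∃ f : V → ℕ, Set.InjOn f S ∧ (∀ v ∈ S, f v < n) ∧
      ∀ w ∈ S, (Bad G {z | z ∈ S ∧ f z < f w} w).ncard ≤ d := by
  classical
  intro n
  induction n with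
  | zero =>
    intro S hS
    have : S = ∅ := by rwa [Set.ncard_eq_zero (Set.toFinite _)] at hS
    subst this
    exact ⟨fun _ => 0, by simp, by simp, by simp⟩
  | succ n ih =>
    intro S hS
    have hne : S.Nonempty := by
      apply (Set.ncard_pos (Set.toFinite _)).1
      omega
    obtain ⟨w, hw, hwd⟩ := exists_small_bad hr hg hV hne
    have h1 : (S \ {w}).ncard = n := by
      rw [Set.ncard_sdiff_singleton_of_mem hw, hS]
      rfl
    obtain ⟨f, hf1, hf2, hf3⟩ := ih (S \ {w}) h1
    refine ⟨Function.update f w n, ?_, ?_, ?_⟩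
    · intro a ha b hb hab
      by_cases haw : a = w
      · subst haw
        by_cases hba : b = a
        · exact hba.symm
        · rw [Function.update_self, Function.update_of_ne hba] at hab
          have := hf2 b ⟨hb, hba⟩
          omega
      · by_cases hbw : b = w
        · subst hbw
          rw [Function.update_self, Function.update_of_ne haw] at hab
          have := hf2 a ⟨ha, haw⟩
          omega
        · rw [Function.update_of_ne haw, Function.update_of_ne hbw] at hab
          exact hf1 ⟨ha, haw⟩ ⟨hb, hbw⟩ hab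
    · intro v hv
      by_cases hvw : v = w
      · subst hvw
        rw [Function.update_self]
        omega
      · rw [Function.update_of_ne hvw]
        have := hf2 v ⟨hv, hvw⟩
        omega
    · intro v hv
      by_cases hvw : v = w
      · subst hvw
        refine le_trans (Set.ncard_le_ncard (Bad_mono ?_ _) (Set.toFinite _)) hwd
        rintro z ⟨hz1, hz2⟩
        refine ⟨hz1, ?_⟩
        rintro rfl
        exact lt_irrefl _ hz2
      · refine le_trans (Set.ncard_le_ncard (Bad_mono ?_ _) (Set.toFinite _)) (hf3 v ⟨hv, hvw⟩)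
        rintro z ⟨hz1, hz2⟩
        have hzw : z ≠ w := by
          rintro rfl
          rw [Function.update_self, Function.update_of_ne hvw] at hz2
          have := hf2 v ⟨hv, hvw⟩
          omega
        rw [Function.update_of_ne hzw, Function.update_of_ne hvw] at hz2
        exact ⟨⟨hz1, hzw⟩, hz2⟩

theorem triangle_free {G : SimpleGraph V} (hg : ((6 : ℕ) : ℕ∞) < G.egirth) :
    ∀ a b c, G.Adj a b → G.Adj b c → G.Adj a c → False := by
  intro a b c hab hbc hac
  have h1 : (Walk.cons hab (Walk.cons hbc Walk.nil) : G.Walk a c).IsPath := by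
    simp only [Walk.cons_isPath_iff, Walk.IsPath.nil, Walk.support_cons,
      Walk.support_nil, List.mem_cons, List.not_mem_nil, or_false, true_and]
    exact ⟨hbc.ne, fun h => h.elim hab.ne hac.ne⟩
  have h2 : (Walk.cons hac Walk.nil : G.Walk a c).IsPath := by
    simp [Walk.cons_isPath_iff, hac.ne]
  have := path_uniq hg h1 h2 (by simp)
  have h3 := congrArg Walk.length this
  simp at h3

/-- A graph on fewer than `d ^ r` vertices and with girth larger than `6 r` is
`(0, d)`-colourable. -/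
theorem zeroCol_of_card [Finite V] {G : SimpleGraph V} {d r : ℕ} (hr : 1 ≤ r)
    (hg : ((6 * r : ℕ) : ℕ∞) < G.egirth) (hV : Nat.card V < d ^ r) : ZeroCol G d := by
  obtain ⟨f, hf1, hf2, hf3⟩ := exists_order hr hg hV _ Set.univ rfl
  refine zeroCol_of_order G d f (fun a b h => hf1 trivial trivial h) (triangle_free ?_) ?_
  · refine lt_of_le_of_lt ?_ hg
    exact_mod_cast (by omega : 6 ≤ 6 * r)
  · intro w
    have := hf3 w trivial
    simpa using this

end Pool.Agent.H968R3
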