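import Pool.Agent.H968R3.Euler
import Pool.Agent.H968R3.Order

set_option autoImplicit false

namespace Pool.Agent.H968R3

open SimpleGraph

variable {V : Type}

/-- `(0,k)`-colourability of the subgraph induced on `U`. -/
def ZeroColOn (G : SimpleGraph V) (U : Set V) (k : ℕ) : Prop :=
  ∃ I : Set V, I ⊆ U ∧ (∀ u ∈ I, ∀ v ∈ I, ¬ G.Adj u v) ∧
    ∀ v ∈ U, v ∉ I → {w | G.Adj v w ∧ w ∈ U ∧ w ∉ I}.ncard ≤ k

/-- the degree of `v` inside `U` -/
noncomputable def degOn (G : SimpleGraph V) (U : Set V) (v : V) : ℕ := {w | G.Adj v w ∧ w ∈ U}.ncard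

/-- a vertex without neighbours in `I` can be added to `I` -/
theorem add_vertex [Finite V] {G : SimpleGraph V} {U : Set V} {k : ℕ} {v : V} (hv : v ∈ U)
    {I : Set V} (hI : I ⊆ U \ {v}) (hI2 : ∀ u ∈ I, ∀ v ∈ I, ¬ G.Adj u v)
    (hI3 : ∀ x ∈ U \ {v}, x ∉ I → {w | G.Adj x w ∧ w ∈ U \ {v} ∧ w ∉ I}.ncard ≤ k)
    (h : ∀ x, G.Adj v x → x ∈ U → x ∉ I) : ZeroColOn G U k := by
  refine ⟨insert v I, ?_, ?_, ?_⟩
  · rintro x (rfl | hx)
    · exact hv
    · exact (hI hx).1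
  · rintro x (rfl | hx) y (rfl | hy) hxy
    · exact hxy.ne rfl
    · exact h y hxy (hI hy).1 hy
    · exact h x hxy.symm (hI hx).1 hx
    · exact hI2 x hx y hy hxy
  · intro x hx hxI
    have h1 : x ≠ v := fun e => hxI (Or.inl e)
    have h2 : x ∉ I := fun e => hxI (Or.inr e)
    refine le_trans (Set.ncard_le_ncard ?_ (Set.toFinite _)) (hI3 x ⟨hx, h1⟩ h2)
    rintro w ⟨hw1, hw2, hw3⟩
    exact ⟨hw1, ⟨hw2, fun e => hw3 (Or.inl e)⟩, fun e => hw3 (Or.inr e)⟩

theorem reduce_one [Finite V] {G : SimpleGraph V} {U : Set V} {k : ℕ} {v : V} (hv : v ∈ U)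
    (hdeg : degOn G U v ≤ 1) (h : ZeroColOn G (U \ {v}) k) : ZeroColOn G U k := by
  obtain ⟨I, hI, hI2, hI3⟩ := h
  by_cases hall : ∀ x, G.Adj v x → x ∈ U → x ∉ I
  · exact add_vertex hv hI hI2 hI3 hall
  · push Not at hall
    obtain ⟨x, hx1, hx2, hx3⟩ := hall
    have huniq : ∀ y, G.Adj v y → y ∈ U → y = x := by
      intro y hy1 hy2
      exact (Set.ncard_le_one_iff (Set.toFinite _)).1 hdeg ⟨hy1, hy2⟩ ⟨hx1, hx2⟩
    have hvI : v ∉ I := fun e => (hI e).2 rfl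
    refine ⟨I, fun y hy => (hI hy).1, hI2, ?_⟩
    intro y hy hyI
    by_cases hyv : y = v
    · have : {w | G.Adj y w ∧ w ∈ U ∧ w ∉ I} = ∅ := by
        ext w
        simp only [Set.mem_empty_iff_false, iff_false]
        rintro ⟨h1, h2, h3⟩
        rw [hyv] at h1
        rw [huniq w h1 h2] at h3
        exact h3 hx3
      rw [this, Set.ncard_empty]
      omega
    · refine le_trans (Set.ncard_le_ncard ?_ (Set.toFinite _)) (hI3 y ⟨hy, hyv⟩ hyI)
      rintro w ⟨h1, h2, h3⟩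
      refine ⟨h1, ⟨h2, ?_⟩, h3⟩
      rintro rfl
      exact hyI (huniq y h1.symm hy ▸ hx3)

theorem reduce_two [Finite V] {G : SimpleGraph V} {U : Set V} {k : ℕ} {v : V} (hv : v ∈ U)
    (htri : ∀ a b c, G.Adj a b → G.Adj b c → G.Adj a c → False)
    (hdeg : degOn G U v ≤ k) (hnb : ∀ x ∈ U, G.Adj v x → degOn G U x ≤ k + 1)
    (h : ZeroColOn G (U \ {v}) k) : ZeroColOn G U k := by
  classical
  obtain ⟨I, hI, hI2, hI3⟩ := h
  by_cases hall : ∀ x, G.Adj v x → x ∈ U → x ∉ I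
  · exact add_vertex hv hI hI2 hI3 hall
  · have hvI : v ∉ I := fun e => (hI e).2 rfl
    let Sat : Set V := {x | x ∈ U ∧ G.Adj v x ∧ x ∉ I ∧
      k ≤ {w | G.Adj x w ∧ w ∈ U \ {v} ∧ w ∉ I}.ncard}
    have hSat : ∀ x ∈ Sat, ∀ y ∈ I, ¬ G.Adj x y := by
      rintro x ⟨hx1, hx2, hx3, hx4⟩ y hy hxy
      have h1 : insert v (insert y {w | G.Adj x w ∧ w ∈ U \ {v} ∧ w ∉ I}) ⊆
          {w | G.Adj x w ∧ w ∈ U} := by
        rintro w (rfl | rfl | hw)
        · exact ⟨hx2.symm, hv⟩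
        · exact ⟨hxy, (hI hy).1⟩
        · exact ⟨hw.1, hw.2.1.1⟩
      have h2 := Set.ncard_le_ncard h1 (Set.toFinite _)
      rw [Set.ncard_insert_of_notMem, Set.ncard_insert_of_notMem] at h2
      · have h3 := hnb x hx1 hx2
        unfold degOn at h3
        omega
      · exact fun hw => hw.2.2 hy
      · rintro (hw | hw)
        · exact hvI (hw ▸ hy)
        · exact hw.2.1.2 rfl
    refine ⟨I ∪ Sat, ?_, ?_, ?_⟩
    · rintro y (hy | hy)
      · exact (hI hy).1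
      · exact hy.1
    · rintro x (hx | hx) y (hy | hy) hxy
      · exact hI2 x hx y hy hxy
      · exact hSat y hy x hx hxy.symm
      · exact hSat x hx y hy hxy
      · exact htri v x y hx.2.1 hxy hy.2.1
    · intro y hy hyI
      by_cases hyv : y = v
      · subst hyv
        refine le_trans (Set.ncard_le_ncard ?_ (Set.toFinite _)) hdeg
        rintro w ⟨h1, h2, h3⟩
        exact ⟨h1, h2⟩
      · have h1 : y ∉ I := fun e => hyI (Or.inl e)
        have h2 : y ∉ Sat := fun e => hyI (Or.inr e)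
        by_cases hvy : G.Adj v y
        · have h3 : {w | G.Adj y w ∧ w ∈ U \ {v} ∧ w ∉ I}.ncard < k := by
            by_contra hcon
            exact h2 ⟨hy, hvy, h1, not_lt.1 hcon⟩
          have h4 : {w | G.Adj y w ∧ w ∈ U ∧ w ∉ I ∪ Sat} ⊆
              insert v {w | G.Adj y w ∧ w ∈ U \ {v} ∧ w ∉ I} := by
            rintro w ⟨h5, h6, h7⟩
            by_cases hwv : w = v
            · exact Or.inl hwv
            · exact Or.inr ⟨h5, ⟨h6, hwv⟩, fun e => h7 (Or.inl e)⟩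
          have h5 := Set.ncard_le_ncard h4 (Set.toFinite _)
          have h6 := Set.ncard_insert_le v {w | G.Adj y w ∧ w ∈ U \ {v} ∧ w ∉ I}
          omega
        · refine le_trans (Set.ncard_le_ncard ?_ (Set.toFinite _)) (hI3 y ⟨hy, hyv⟩ h1)
          rintro w ⟨h5, h6, h7⟩
          refine ⟨h5, ⟨h6, ?_⟩, fun e => h7 (Or.inl e)⟩
          rintro rfl
          exact hvy h5.symm

/-- the subgraph of `G` with the edges inside `U` -/
def inside (G : SimpleGraph V) (U : Set V) : SimpleGraph V where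
  Adj x y := G.Adj x y ∧ x ∈ U ∧ y ∈ U
  symm := ⟨fun _ _ ⟨h, h1, h2⟩ => ⟨h.symm, h2, h1⟩⟩
  loopless := ⟨fun _ h => h.1.ne rfl⟩

theorem euler_on [Finite V] {G : SimpleGraph V} {g : ℕ} (hemb : EmbedsEulerGenus G g)
    (hg : ((7 : ℕ) : ℕ∞) ≤ G.egirth) {U : Set V} (hU : U.Nonempty) :
    5 * ((inside G U).edgeSet.ncard : ℤ) ≤ 7 * ((U.ncard : ℤ) + g) := by
  classical
  obtain ⟨n, T, hT, hχ, f, hf, hadj⟩ := hemb
  let fe : V ↪ Fin n := ⟨f, hf⟩
  have h1 : ((inside G U).map fe).edgeSet.ncard = (inside G U).edgeSet.ncard := by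
    rw [edgeSet_map, Set.ncard_image_of_injective _ (fe.sym2Map).injective]
  have h2 : (f '' U).ncard = U.ncard := Set.ncard_image_of_injective _ hf
  have h3 := euler_ineq (H := (inside G U).map fe) (U := f '' U) hT hχ ?_ ?_ (hU.image f) ?_
  · rw [h1, h2] at h3
    exact h3
  · rintro x y ⟨-, u, v, ⟨huv, -, -⟩, rfl, rfl⟩
    exact hadj u v huv
  · intro B hB hne h2
    have hB' : B.comap f ≤ G := by
      intro u v huv
      obtain ⟨-, a, b, hab, h5, h6⟩ := hB huv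
      have h5' : a = u := hf h5
      have h6' : b = v := hf h6
      subst h5' h6'
      exact hab.1
    have h4 : 7 ≤ (B.comap f).edgeSet.ncard := by
      apply le_card_edges hg hB'
      · obtain ⟨x, y, hxy⟩ := hne
        obtain ⟨-, a, b, hab, rfl, rfl⟩ := hB hxy
        exact ⟨a, b, hxy⟩
      · intro u v huv
        obtain ⟨w, hw1, hw2⟩ := h2 (f u) (f v) huv
        obtain ⟨-, a, b, hab, h5, h6⟩ := hB hw2
        subst h6
        exact ⟨b, fun e => hw1 (by rw [e]; rfl), hw2⟩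
    refine h4.trans ?_
    refine Set.ncard_le_ncard_of_injOn (Sym2.map f) ?_ (fun a _ b _ h => Sym2.map.injective hf h)
      (Set.toFinite _)
    intro e
    induction e with
    | _ x y => exact id
  · rintro x y ⟨-, u, v, ⟨-, h5, -⟩, rfl, -⟩
    exact ⟨u, h5, rfl⟩

end Pool.Agent.H968R3
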