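import Mathlib

set_option autoImplicit false

/-!
Definitions for improper colourings of graphs on surfaces: `(0,k)`-colourability, triangulated
closed surfaces, Euler characteristic, graphs embeddable on a surface of given Euler genus.
-/

namespace Pool.Agent.H968R3

open SimpleGraph

/-- `(0,k)`-colourability: the vertex set can be partitioned into an independent set `I` and a set
(the complement of `I`) whose induced subgraph has maximum degree at most `k`. -/
def ZeroCol {V : Type} (G : SimpleGraph V) (k : ℕ) : Prop :=
  ∃ I : Set V, (∀ u ∈ I, ∀ v ∈ I, ¬ G.Adj u v) ∧ ∀ v ∉ I, {w | G.Adj v w ∧ w ∉ I}.ncard ≤ k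

/-- The graph (1-skeleton) of a set `T` of triangles: two distinct points are joined when they lie
in a common triangle. -/
def skel {W : Type} (T : Finset (Finset W)) : SimpleGraph W where
  Adj x y := x ≠ y ∧ ∃ t ∈ T, x ∈ t ∧ y ∈ t
  symm := ⟨fun _ _ ⟨h, t, ht, h1, h2⟩ => ⟨h.symm, t, ht, h2, h1⟩⟩
  loopless := ⟨fun _ h => h.1 rfl⟩

/-- The link of the point `w`: two distinct points other than `w` are joined when together with `w`
they lie in a common triangle. -/
def link {W : Type} (T : Finset (Finset W)) (w : W) : SimpleGraph W where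
  Adj x y := x ≠ y ∧ x ≠ w ∧ y ≠ w ∧ ∃ t ∈ T, w ∈ t ∧ x ∈ t ∧ y ∈ t
  symm := ⟨fun _ _ ⟨h, h1, h2, t, ht, h3, h4, h5⟩ => ⟨h.symm, h2, h1, t, ht, h3, h5, h4⟩⟩
  loopless := ⟨fun _ h => h.1 rfl⟩

/-- `T` is the set of triangles of a triangulation, with vertex set `W`, of a closed connected
surface: there is a triangle, every triangle has three vertices, every edge lies in exactly two
triangles, the link of every vertex is connected (hence a cycle), and the 1-skeleton is
connected. -/
structure IsClosedSurface {W : Type} (T : Finset (Finset W)) : Prop where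
  nonempty : T.Nonempty
  card_eq : ∀ t ∈ T, t.card = 3
  edge : ∀ x y, (skel T).Adj x y → {t | t ∈ T ∧ x ∈ t ∧ y ∈ t}.ncard = 2
  link : ∀ w x y, (skel T).Adj w x → (skel T).Adj w y → (link T w).Reachable x y
  conn : (skel T).Connected

/-- The Euler characteristic `V - E + F` of a triangulation. -/
noncomputable def eulerChar {W : Type} (T : Finset (Finset W)) : ℤ :=
  (Nat.card W : ℤ) - ((skel T).edgeSet.ncard : ℤ) + (T.card : ℤ)

/-- `G` embeds on some (closed connected) surface of Euler genus `g`, that is, of Euler
characteristic `2 - g`: it is (isomorphic to) a subgraph of the 1-skeleton of a triangulation of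
such a surface. -/
def EmbedsEulerGenus {V : Type} (G : SimpleGraph V) (g : ℕ) : Prop :=
  ∃ (n : ℕ) (T : Finset (Finset (Fin n))), IsClosedSurface T ∧ eulerChar T = 2 - (g : ℤ) ∧
    ∃ f : V → Fin n, Function.Injective f ∧ ∀ u v, G.Adj u v → (skel T).Adj (f u) (f v)

end Pool.Agent.H968R3
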