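import Pool.Agent.H968R3.GraphLem
import Pool.Agent.H968R3.SurfDefs

set_option autoImplicit false

namespace Pool.Agent.H968R3

open SimpleGraph

variable {W : Type}

section Basic

variable {T : Finset (Finset W)}

/-- three points of a triangle -/
theorem eq_of_three (hT : IsClosedSurface T) {t t' : Finset W} (ht : t ∈ T) (ht' : t' ∈ T)
    {x y z : W} (hxy : x ≠ y) (hxz : x ≠ z) (hyz : y ≠ z) (h1 : x ∈ t) (h2 : y ∈ t) (h3 : z ∈ t)
    (h1' : x ∈ t') (h2' : y ∈ t') (h3' : z ∈ t') : t = t' := by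
  classical
  have hc : ({x, y, z} : Finset W).card = 3 := Finset.card_eq_three.2 ⟨x, y, z, hxy, hxz, hyz, rfl⟩
  have e1 : ({x, y, z} : Finset W) = t := by
    apply Finset.eq_of_subset_of_card_le
    · intro a ha
      simp only [Finset.mem_insert, Finset.mem_singleton] at ha
      rcases ha with rfl | rfl | rfl <;> assumption
    · rw [hc, hT.card_eq t ht]
  have e2 : ({x, y, z} : Finset W) = t' := by
    apply Finset.eq_of_subset_of_card_le
    · intro a ha
      simp only [Finset.mem_insert, Finset.mem_singleton] at ha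
      rcases ha with rfl | rfl | rfl <;> assumption
    · rw [hc, hT.card_eq t' ht']
  exact e1.symm.trans e2

/-- the third point -/
theorem exists_third (hT : IsClosedSurface T) {t : Finset W} (ht : t ∈ T) {x y : W} (hxy : x ≠ y)
    (_ : x ∈ t) (_ : y ∈ t) : ∃ z, z ∈ t ∧ z ≠ x ∧ z ≠ y := by
  classical
  by_contra hcon
  push Not at hcon
  have : t ⊆ {x, y} := by
    intro z hz
    by_cases hzx : z = x
    · simp [hzx]
    · simp [hcon z hz hzx]
  have h3 := Finset.card_le_card this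
  rw [hT.card_eq t ht, Finset.card_pair hxy] at h3
  omega

/-- an edge lies in two triangles only -/
theorem eq_or_eq (hT : IsClosedSurface T) {x y : W} (hxy : x ≠ y) {s s' t : Finset W} (hs : s ∈ T)
    (hs' : s' ∈ T) (ht : t ∈ T) (hss : s ≠ s') (h1 : x ∈ s) (h2 : y ∈ s) (h3 : x ∈ s')
    (h4 : y ∈ s') (h5 : x ∈ t) (h6 : y ∈ t) : t = s ∨ t = s' := by
  have h := hT.edge x y ⟨hxy, s, hs, h1, h2⟩
  obtain ⟨a, b, hab, he⟩ := Set.ncard_eq_two.1 h
  have ms : s ∈ ({a, b} : Set (Finset W)) := he ▸ (⟨hs, h1, h2⟩ : s ∈ {t | t ∈ T ∧ x ∈ t ∧ y ∈ t})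
  have ms' : s' ∈ ({a, b} : Set (Finset W)) :=
    he ▸ (⟨hs', h3, h4⟩ : s' ∈ {t | t ∈ T ∧ x ∈ t ∧ y ∈ t})
  have mt : t ∈ ({a, b} : Set (Finset W)) := he ▸ (⟨ht, h5, h6⟩ : t ∈ {t | t ∈ T ∧ x ∈ t ∧ y ∈ t})
  simp only [Set.mem_insert_iff, Set.mem_singleton_iff] at ms ms' mt
  rcases ms with rfl | rfl <;> rcases ms' with rfl | rfl <;> rcases mt with rfl | rfl <;>
    first
    | exact absurd rfl hss
    | exact Or.inl rfl
    | exact Or.inr rfl

/-- every edge of a triangle lies in another triangle -/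
theorem exists_other (hT : IsClosedSurface T) {x y : W} (hxy : x ≠ y) {t : Finset W} (ht : t ∈ T)
    (h1 : x ∈ t) (h2 : y ∈ t) : ∃ s ∈ T, s ≠ t ∧ x ∈ s ∧ y ∈ s := by
  have h := hT.edge x y ⟨hxy, t, ht, h1, h2⟩
  have h3 : 1 < {t | t ∈ T ∧ x ∈ t ∧ y ∈ t}.ncard := by omega
  obtain ⟨s, hs, hst⟩ := Set.exists_ne_of_one_lt_ncard h3 t
  exact ⟨s, hs.1, hst, hs.2⟩

/-- A nonempty set of triangles closed under sharing an edge contains all triangles. -/
theorem strongly_connected (hT : IsClosedSurface T) (P : Finset W → Prop)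
    (hP : ∀ t ∈ T, ∀ t' ∈ T, ∀ x y, x ≠ y → x ∈ t → y ∈ t → x ∈ t' → y ∈ t' → P t → P t')
    {t₀ : Finset W} (ht₀ : t₀ ∈ T) (h₀ : P t₀) : ∀ t ∈ T, P t := by
  -- all triangles at one vertex
  have key : ∀ w, ∀ t ∈ T, w ∈ t → P t → ∀ s ∈ T, w ∈ s → P s := by
    intro w t ht hwt hPt s hs hws
    obtain ⟨x, hx, hxw⟩ : ∃ x ∈ t, x ≠ w := by
      have : 1 < t.card := by rw [hT.card_eq t ht]; omega
      exact Finset.exists_mem_ne this w
    obtain ⟨y, hy, hyw⟩ : ∃ x ∈ s, x ≠ w := by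
      have : 1 < s.card := by rw [hT.card_eq s hs]; omega
      exact Finset.exists_mem_ne this w
    have hreach := hT.link w x y ⟨hxw.symm, t, ht, hwt, hx⟩ ⟨hyw.symm, s, hs, hws, hy⟩
    obtain ⟨p⟩ := hreach
    have hall : ∀ (u v : W) (p : (link T w).Walk u v), (∀ t ∈ T, w ∈ t → u ∈ t → P t) → u ≠ w →
        (∀ t ∈ T, w ∈ t → v ∈ t → P t) := by
      intro u v p
      induction p with
      | nil => intro h _; exact h
      | cons h q ih =>
        rename_i a b c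
        intro h1 _
        obtain ⟨hab, haw, hbw, r, hr, hwr, har, hbr⟩ := h
        apply ih _ hbw
        intro t' ht' hwt' hbt'
        exact hP r hr t' ht' w b hbw.symm hwr hbr hwt' hbt' (h1 r hr hwr har)
    refine hall x y p ?_ hxw s hs hws hy
    intro t' ht' hwt' hxt'
    exact hP t ht t' ht' w x hxw.symm hwt hx hwt' hxt' hPt
  intro t ht
  obtain ⟨a, ha⟩ : t₀.Nonempty := by
    rw [← Finset.card_pos, hT.card_eq t₀ ht₀]; omega
  obtain ⟨b, hb⟩ : t.Nonempty := by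
    rw [← Finset.card_pos, hT.card_eq t ht]; omega
  obtain ⟨p⟩ := hT.conn.preconnected a b
  have hall : ∀ (u v : W) (p : (skel T).Walk u v), (∃ t ∈ T, u ∈ t ∧ P t) →
      (∃ t ∈ T, v ∈ t ∧ P t) := by
    intro u v p
    induction p with
    | nil => exact id
    | cons h q ih =>
      rintro ⟨s, hs, hus, hPs⟩
      obtain ⟨hne, r, hr, h1, h2⟩ := h
      exact ih ⟨r, hr, h2, key _ s hs hus hPs r hr h1⟩
  obtain ⟨s, hs, hbs, hPs⟩ := hall a b p ⟨t₀, ht₀, ha, h₀⟩
  exact key b s hs hbs hPs t ht hb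

end Basic

end Pool.Agent.H968R3
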